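import Pool.Agent.TH912.LG.Defs

/-! Unique games and linear unique games (helper329). -/

set_option autoImplicit false

namespace Pool.Agent.Q329.LSU

open Pool.Agent.TH912.LG

/-- linear unique games: all constraints go from left to right and every constraint map is a shift -/
def Linear {q : ℕ} {V : Type} (X : Game (ZMod q) V) : Prop :=
  (∀ u v, X.con u v ≠ none → X.side u = true ∧ X.side v = false) ∧
  ∀ u v π, X.con u v = some π → ∃ a : ZMod q, π = fun x => x + a

/-- unique games: all constraints go from left to right and every constraint map is bijective -/
def Unique {Q V : Type} (X : Game Q V) : Prop :=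
  (∀ u v, X.con u v ≠ none → X.side u = true ∧ X.side v = false) ∧
  ∀ u v π, X.con u v = some π → Function.Bijective π

end Pool.Agent.Q329.LSU
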