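import Pool.Agent.TH912.LG.Lower
import Pool.Agent.TH912.LG.Upper
import Pool.Agent.Q329.LT.Mgf
import Pool.Agent.Q329.LSU.Defs

/-! Local search on unique games: cyclic covers of bipartite games with random shifts (helper329). -/

set_option autoImplicit false

namespace Pool.Agent.Q329.LSU

open Finset
open Pool.Agent.TH912.LS (ball mem_ball ball_self ball_symm ball_trans ball_mono ball_adj dc)
open Pool.Agent.TH912.LG
open Pool.Agent.W179.Erdos (FCyc)

section cover

variable {U : Type} {p : ℕ}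

open Classical in
/-- the cyclic cover of the bipartite game on the double cover of `G` with shifts `g` -/
noncomputable def ug (G : SimpleGraph U) (g : U × U → ZMod p) :
    Game (ZMod p) ((U × Bool) × ZMod p) where
  side x := x.1.2
  con x y := if x.1.2 = true ∧ y.1.2 = false ∧ G.Adj x.1.1 y.1.1 ∧
      y.2 = x.2 + g (x.1.1, y.1.1) then
    some (fun a => a + g (x.1.1, y.1.1)) else none

variable (G : SimpleGraph U) (g : U × U → ZMod p)

theorem con_ne' {x y : (U × Bool) × ZMod p} :
    (ug G g).con x y ≠ none ↔ x.1.2 = true ∧ y.1.2 = false ∧ G.Adj x.1.1 y.1.1 ∧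
      y.2 = x.2 + g (x.1.1, y.1.1) := by
  unfold ug
  dsimp only
  split_ifs with h
  · exact ⟨fun _ => h, fun _ => by simp⟩
  · exact ⟨fun h' => absurd rfl h', fun h' => absurd h' h⟩

theorem con_some' {x y : (U × Bool) × ZMod p} {π : ZMod p → ZMod p} :
    (ug G g).con x y = some π ↔ (x.1.2 = true ∧ y.1.2 = false ∧ G.Adj x.1.1 y.1.1 ∧
      y.2 = x.2 + g (x.1.1, y.1.1)) ∧ (fun a => a + g (x.1.1, y.1.1)) = π := by
  unfold ug
  dsimp only
  split_ifs with h
  · simp only [Option.some.injEq]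
    exact ⟨fun h' => ⟨h, h'⟩, fun h' => h'.2⟩
  · simp only [reduceCtorEq, false_iff]
    exact fun h' => h h'.1

theorem gr_adj' {x y : (U × Bool) × ZMod p} (h : (ug G g).gr.Adj x y) :
    (dc G).Adj x.1 y.1 := by
  obtain ⟨_, h | h⟩ := h
  · rw [con_ne'] at h
    exact ⟨h.2.2.1, by rw [h.1, h.2.1]; simp⟩
  · rw [con_ne'] at h
    exact ⟨h.2.2.1.symm, by rw [h.1, h.2.1]; simp⟩

theorem gr_back' {x y z : (U × Bool) × ZMod p} (h : (ug G g).gr.Adj x y)
    (h' : (ug G g).gr.Adj y z) (hz : z.1 = x.1) : z = x := by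
  obtain ⟨_, h⟩ := h
  obtain ⟨_, h'⟩ := h'
  rw [con_ne', con_ne'] at h h'
  refine Prod.ext hz ?_
  rcases h with h | h <;> rcases h' with h' | h'
  · have := h.2.1
    rw [h'.1] at this
    exact absurd this (by simp)
  · have e1 := h.2.2.2
    have e2 := h'.2.2.2
    rw [hz, e1] at e2
    exact (add_right_cancel e2).symm
  · have e1 := h.2.2.2
    have e2 := h'.2.2.2
    rw [hz] at e2
    rw [e1, e2]
  · have := h.1
    rw [h'.2.1] at this
    exact absurd this (by simp)

theorem ug_far {L : ℕ} (hL : ∀ l φ, FCyc G l φ → L < l) :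
    Far (ug G g) (fun (a : ZMod p) x => (x.1, x.2 + a)) L where
  h0 := fun x => by simp
  hadd := fun a b x => by
    ext
    · rfl
    · rfl
    · show x.2 + (a + b) = x.2 + b + a
      ring
  hside := fun a v => rfl
  hcon := by
    intro a u v
    have h1 : (v.2 + a = u.2 + a + g (u.1.1, v.1.1)) ↔ (v.2 = u.2 + g (u.1.1, v.1.1)) := by
      constructor
      · intro h
        have : v.2 + a = (u.2 + g (u.1.1, v.1.1)) + a := by rw [h]; ring
        exact add_right_cancel this
      · intro h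
        rw [h]; ring
    unfold ug
    dsimp only
    by_cases hc : u.1.2 = true ∧ v.1.2 = false ∧ G.Adj u.1.1 v.1.1 ∧ v.2 = u.2 + g (u.1.1, v.1.1)
    · rw [if_pos hc, if_pos ⟨hc.1, hc.2.1, hc.2.2.1, h1.mpr hc.2.2.2⟩]
    · rw [if_neg hc, if_neg fun h => hc ⟨h.1, h.2.1, h.2.2.1, h1.mp h.2.2.2⟩]
  far := by
    rintro a x ⟨w, hw⟩
    by_contra ha
    obtain ⟨l, h, hl, hc⟩ := lift_cyc (D := dc G) (H := (ug G g).gr) Prod.fst
      (fun s s' hs => gr_adj' G g hs) (fun s s' s'' h1 h2 h3 => gr_back' G g h1 h2 h3)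
      w.length (fun i => w.getVert i) (fun i hi => w.adj_getVert_succ hi)
      (by simp) (by
        simp only [SimpleGraph.Walk.getVert_length, SimpleGraph.Walk.getVert_zero]
        intro h
        have h2 : x.2 + a = x.2 := congrArg Prod.snd h
        exact ha (by simpa using h2))
    obtain ⟨l', h', hl', hc'⟩ := dc_cyc hc
    have := hL l' h' hc'
    omega

theorem ug_satisfiable : Satisfiable (ug G g) := by
  refine ⟨fun x => x.2, ?_⟩
  intro x y π h
  rw [con_some'] at h
  obtain ⟨⟨_, _, _, h1⟩, rfl⟩ := h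
  exact h1.symm

theorem ug_linear : Linear (ug G g) := by
  refine ⟨?_, ?_⟩
  · intro x y h
    rw [con_ne'] at h
    exact ⟨h.1, h.2.1⟩
  · intro x y π h
    rw [con_some'] at h
    exact ⟨_, h.2.symm⟩

theorem ug_degree {Δ : ℕ} (hdeg : ∀ u, (G.neighborSet u).ncard ≤ Δ) [Finite U]
    (x : (U × Bool) × ZMod p) : ((ug G g).gr.neighborSet x).ncard ≤ Δ := by
  refine le_trans (b := (G.neighborSet x.1.1).ncard) ?_ (hdeg _)
  refine Set.ncard_le_ncard_of_injOn (fun y => y.1.1) ?_ ?_ (Set.toFinite _)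
  · intro y hy
    exact (gr_adj' G g hy).1
  · intro y hy z hz hyz
    have hyz' : y.1.1 = z.1.1 := hyz
    have e1 := gr_adj' G g hy
    have e2 := gr_adj' G g hz
    have hs : y.1.2 = z.1.2 := by
      have a1 := e1.2
      have a2 := e2.2
      revert a1 a2
      cases x.1.2 <;> cases y.1.2 <;> cases z.1.2 <;> simp
    have h1 : z.1 = y.1 := Prod.ext hyz'.symm hs.symm
    exact (gr_back' G g (SimpleGraph.Adj.symm hy) hz h1).symm

end cover

section counts

variable {U : Type} [Fintype U] {p : ℕ} [NeZero p] (G : SimpleGraph U) (g : U × U → ZMod p)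

open Classical in
theorem numCon_ug :
    numCon (ug G g) = (univ.filter fun e : U × U => G.Adj e.1 e.2).card * p := by
  have h1 : {e : ((U × Bool) × ZMod p) × ((U × Bool) × ZMod p) | (ug G g).con e.1 e.2 ≠ none} =
      edge g '' (((univ.filter fun e : U × U => G.Adj e.1 e.2) ×ˢ (univ : Finset (ZMod p)) :
        Finset ((U × U) × ZMod p)) : Set ((U × U) × ZMod p)) := by
    ext ⟨x, y⟩
    rw [Set.mem_ofPred_eq, con_ne']
    constructor
    · rintro ⟨h1, h2, h3, h4⟩
      dsimp only at h1 h2 h3 h4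
      refine ⟨((x.1.1, y.1.1), x.2), ?_, ?_⟩
      · simp [h3]
      · simp only [edge]
        ext <;> simp [h1, h2, h4]
    · rintro ⟨⟨e, z⟩, h1, h2⟩
      simp only [coe_product, Set.mem_prod, mem_coe, mem_filter, mem_univ, true_and,
        and_true] at h1
      simp only [edge, Prod.mk.injEq] at h2
      obtain ⟨rfl, rfl⟩ := h2
      exact ⟨rfl, rfl, h1, rfl⟩
  unfold numCon
  rw [h1, Set.ncard_image_of_injective _ (edge_inj g), Set.ncard_coe_finset, card_product,
    card_univ, ZMod.card]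

open Classical in
theorem numSat_ug (L : (U × Bool) × ZMod p → ZMod p) (L0 : U × Bool → ZMod p)
    (hL : ∀ x, L x = L0 x.1) :
    numSat (ug G g) L = ((univ.filter fun e : U × U => G.Adj e.1 e.2).filter fun e =>
      g e = L0 (e.2, false) - L0 (e.1, true)).card * p := by
  have h1 : {e : ((U × Bool) × ZMod p) × ((U × Bool) × ZMod p) |
      ∃ π, (ug G g).con e.1 e.2 = some π ∧ π (L e.1) = L e.2} =
      edge g '' ((((univ.filter fun e : U × U => G.Adj e.1 e.2).filter fun e =>
        g e = L0 (e.2, false) - L0 (e.1, true)) ×ˢ (univ : Finset (ZMod p)) :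
        Finset ((U × U) × ZMod p)) : Set ((U × U) × ZMod p)) := by
    ext ⟨x, y⟩
    rw [Set.mem_ofPred_eq]
    constructor
    · rintro ⟨π, h0, h5⟩
      rw [con_some'] at h0
      obtain ⟨⟨h1, h2, h3, h4⟩, rfl⟩ := h0
      simp only at h1 h2 h3 h4 h5
      rw [hL, hL] at h5
      refine ⟨((x.1.1, y.1.1), x.2), ?_, ?_⟩
      · simp only [coe_product, Set.mem_prod, mem_coe, mem_filter, mem_univ, true_and, and_true]
        refine ⟨h3, ?_⟩
        have e1 : (x.1.1, true) = x.1 := Prod.ext rfl h1.symm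
        have e2 : (y.1.1, false) = y.1 := Prod.ext rfl h2.symm
        rw [e1, e2, ← h5]
        ring
      · simp only [edge]
        ext <;> simp [h1, h2, h4]
    · rintro ⟨⟨e, z⟩, h1, h2⟩
      simp only [coe_product, Set.mem_prod, mem_coe, mem_filter, mem_univ, true_and,
        and_true] at h1
      simp only [edge, Prod.mk.injEq] at h2
      obtain ⟨rfl, rfl⟩ := h2
      refine ⟨fun a => a + g e, ?_, ?_⟩
      · rw [con_some']
        exact ⟨⟨rfl, rfl, h1.1, rfl⟩, rfl⟩
      · rw [hL, hL]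
        show L0 (e.1, true) + g e = L0 (e.2, false)
        rw [h1.2]
        ring
  unfold numSat
  rw [h1, Set.ncard_image_of_injective _ (edge_inj g), Set.ncard_coe_finset, card_product,
    card_univ, ZMod.card]

end counts

/-- some choice of the shifts is bad for all targets -/
theorem exists_bad {E Λ : Type} [Fintype E] [DecidableEq E] [Fintype Λ] [Nonempty Λ] (q : ℕ)
    [NeZero q] (hq : 2 ≤ q) (E0 : Finset E) (t : Λ → E → ZMod q) (η : ℝ) (hη : 0 < η) (hη1 : η ≤ 1)
    (h : Real.log (Fintype.card Λ) < η ^ 2 / 2 * E0.card) :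
    ∃ g : E → ZMod q, ∀ l : Λ, ((E0.filter fun e => g e = t l e).card : ℝ) ≤
      (1 / q + η) * E0.card := by
  classical
  by_contra hcon
  push Not at hcon
  have hq0 : (0 : ℝ) < q := by
    have : 0 < q := by omega
    exact_mod_cast this
  have hq2 : (2 : ℝ) ≤ q := by exact_mod_cast hq
  have hone : ∀ l : Λ, (((univ : Finset (E → ZMod q)).filter fun g =>
      (1 / q + η) * E0.card < ((E0.filter fun e => g e = t l e).card : ℝ)).card : ℝ) *
      Real.exp (η ^ 2 / 2 * E0.card) ≤ (q : ℝ) ^ Fintype.card E := by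
    intro l
    have hmean : (∑ e : E, ∑ k : ZMod q, (if e ∈ E0 ∧ k = t l e then (1 : ℝ) else 0)) =
        E0.card := by
      have h1 : ∀ e : E, ∑ k : ZMod q, (if e ∈ E0 ∧ k = t l e then (1 : ℝ) else 0) =
          if e ∈ E0 then 1 else 0 := by
        intro e
        by_cases he : e ∈ E0
        · simp [he]
        · simp [he]
      rw [sum_congr rfl fun e _ => h1 e]
      simp
    have hm := Pool.Agent.Q329.LT.mgf (ι := E) (κ := ZMod q)
      (fun e k => if e ∈ E0 ∧ k = t l e then (1 : ℝ) else 0) 1 η (η * E0.card)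
      (fun e k => by split_ifs <;> norm_num)
      (fun e k => by split_ifs <;> norm_num) hη.le (by linarith)
      ((univ : Finset (E → ZMod q)).filter fun g =>
        (1 / q + η) * E0.card < ((E0.filter fun e => g e = t l e).card : ℝ)) (by
        intro g hg
        have hg := (mem_filter.1 hg).2
        rw [hmean, ZMod.card]
        have h2 : ∑ e : E, (if e ∈ E0 ∧ g e = t l e then (1 : ℝ) else 0) =
            ((E0.filter fun e => g e = t l e).card : ℝ) := by
          rw [card_filter]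
          push_cast
          rw [← sum_filter, ← sum_filter, filter_and]
          simp only [filter_mem_eq_inter, univ_inter]
          rw [sum_const, sum_const]
          congr 2
          ext e
          simp
        rw [h2]
        have h3 : (E0.card : ℝ) / q + η * E0.card = (1 / q + η) * E0.card := by ring
        rw [h3]
        exact hg.le)
    rw [hmean, ZMod.card] at hm
    refine le_trans (mul_le_mul_of_nonneg_left (Real.exp_le_exp.mpr ?_) (Nat.cast_nonneg _)) hm
    have h4 : (E0.card : ℝ) / q ≤ E0.card / 2 :=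
      div_le_div_of_nonneg_left (Nat.cast_nonneg _) (by norm_num) hq2
    nlinarith [mul_le_mul_of_nonneg_left h4 (sq_nonneg η)]
  have hcover : (univ : Finset (E → ZMod q)) ⊆ (univ : Finset Λ).biUnion fun l =>
      univ.filter fun g => (1 / q + η) * E0.card < ((E0.filter fun e => g e = t l e).card : ℝ) := by
    intro g _
    obtain ⟨l, hl⟩ := hcon g
    exact mem_biUnion.2 ⟨l, mem_univ _, mem_filter.2 ⟨mem_univ _, hl⟩⟩
  have h1 := (card_le_card hcover).trans card_biUnion_le
  have h2 : ((univ : Finset (E → ZMod q)).card : ℝ) * Real.exp (η ^ 2 / 2 * E0.card) ≤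
      Fintype.card Λ * (q : ℝ) ^ Fintype.card E := by
    calc ((univ : Finset (E → ZMod q)).card : ℝ) * Real.exp (η ^ 2 / 2 * E0.card)
        ≤ (∑ l : Λ, (((univ : Finset (E → ZMod q)).filter fun g =>
          (1 / q + η) * E0.card < ((E0.filter fun e => g e = t l e).card : ℝ)).card : ℝ)) *
          Real.exp (η ^ 2 / 2 * E0.card) := by
          refine mul_le_mul_of_nonneg_right ?_ (Real.exp_pos _).le
          exact_mod_cast h1
      _ = ∑ l : Λ, (((univ : Finset (E → ZMod q)).filter fun g =>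
          (1 / q + η) * E0.card < ((E0.filter fun e => g e = t l e).card : ℝ)).card : ℝ) *
          Real.exp (η ^ 2 / 2 * E0.card) := by rw [sum_mul]
      _ ≤ ∑ _l : Λ, (q : ℝ) ^ Fintype.card E := sum_le_sum fun l _ => hone l
      _ = _ := by rw [sum_const, card_univ, nsmul_eq_mul]
  have h3 : ((univ : Finset (E → ZMod q)).card : ℝ) = (q : ℝ) ^ Fintype.card E := by
    rw [card_univ, Fintype.card_fun, ZMod.card]
    push_cast
    rfl
  rw [h3, mul_comm] at h2
  have h4 : Real.exp (η ^ 2 / 2 * E0.card) ≤ Fintype.card Λ :=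
    le_of_mul_le_mul_right h2 (by positivity)
  have h5 : (0 : ℝ) < Fintype.card Λ := by exact_mod_cast Fintype.card_pos
  have h6 := (Real.log_lt_iff_lt_exp h5).1 h
  linarith

/-- the lower bound -/
theorem lower (q : ℕ) [NeZero q] (hq : 2 ≤ q) (δ : ℝ) (hδ : 1 / (q : ℝ) < δ) :
    ∃ (Δ : ℕ) (c : ℝ), 0 < c ∧
    ∀ N : ℕ, ∃ (V : Type) (_ : Fintype V) (X : Game (ZMod q) V),
      N ≤ Fintype.card V ∧ Linear X ∧ Satisfiable X ∧ 0 < numCon X ∧
      (∀ v, (X.gr.neighborSet v).ncard ≤ Δ) ∧
      ∀ (S : Type) [Finite S] (lab : Bool → S → ZMod q) (r m t : ℕ) (F : LocalCost (ZMod q) S r)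
        (start : V → S),
        (m * (t + r + 1) : ℝ) ≤ c * Real.log (Fintype.card V) →
        (∀ φ : V ≃ V, IsAut X φ → ∀ v, start (φ v) = start v) →
        ∃ σ : V → S, Relation.ReflTransGen (Step F m t X) start σ ∧
          (∀ σ', ¬ Step F m t X σ σ') ∧
          (numSat X (fun v => lab (X.side v) (σ v)) : ℝ) ≤ δ * numCon X := by
  classical
  obtain ⟨η, hη⟩ : ∃ η : ℝ, η = min (δ - 1 / q) 1 := ⟨_, rfl⟩
  have hη0 : 0 < η := by
    rw [hη]
    exact lt_min (by linarith) one_pos
  have hη1 : η ≤ 1 := by rw [hη]; exact min_le_right _ _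
  have hηδ : 1 / (q : ℝ) + η ≤ δ := by
    have : η ≤ δ - 1 / q := by rw [hη]; exact min_le_left _ _
    linarith
  have hq2 : (2 : ℝ) ≤ q := by exact_mod_cast hq
  have hlogq : 0 < Real.log q := Real.log_pos (by linarith)
  obtain ⟨d, hd⟩ : ∃ d : ℕ, d = ⌈8 * Real.log q / η ^ 2⌉₊ + 1 := ⟨_, rfl⟩
  have hd1 : 1 ≤ d := by omega
  have hd2 : 8 * Real.log q / η ^ 2 < d := by
    rw [hd]
    push_cast
    have := Nat.le_ceil (8 * Real.log q / η ^ 2)
    linarith
  obtain ⟨Δ, hΔ⟩ : ∃ Δ : ℕ, Δ = 32 * (2 * (4 * d) * (8 * (4 * d) + 1)) := ⟨_, rfl⟩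
  obtain ⟨D, hD⟩ : ∃ D : ℝ, D = (2 * (4 * d : ℕ) * (8 * (4 * d : ℕ) + 1) : ℝ) := ⟨_, rfl⟩
  have hD1 : 1 ≤ D := by
    rw [hD]
    have : (1 : ℝ) ≤ ((4 * d : ℕ) : ℝ) := by
      have : 1 ≤ 4 * d := by omega
      exact_mod_cast this
    nlinarith
  have hlogD : 0 ≤ Real.log D := Real.log_nonneg hD1
  have hlogp : 0 < Real.log (2 * q) := by
    apply Real.log_pos
    linarith
  obtain ⟨C1, hC1⟩ : ∃ C1 : ℝ, C1 = Real.log (2 * q) + 5 * Real.log D := ⟨_, rfl⟩
  have hC1pos : 0 < C1 := by rw [hC1]; positivity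
  refine ⟨Δ, 1 / (4 * C1), by positivity, ?_⟩
  intro N
  obtain ⟨g0, hg0N, hg01⟩ : ∃ g0 : ℕ, N ≤ g0 ∧ 1 ≤ g0 :=
    ⟨max N 1, le_max_left _ _, le_max_right _ _⟩
  obtain ⟨U, _, G, h1, h2, h3, h4, h5⟩ := base_edges d g0 hd1
  rw [← hD] at h2
  rw [← hΔ] at h3
  obtain ⟨n, hn⟩ : ∃ n : ℕ, n = Fintype.card U := ⟨_, rfl⟩
  rw [← hn] at h1 h2 h5
  have hn1 : 1 ≤ n := by omega
  have hnR : (1 : ℝ) ≤ n := by exact_mod_cast hn1
  obtain ⟨M, hM⟩ : ∃ M : ℕ, M = (univ.filter fun e : U × U => G.Adj e.1 e.2).card := ⟨_, rfl⟩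
  rw [← hM] at h5
  have h5R : (d : ℝ) * n ≤ 2 * M := by exact_mod_cast h5
  have hcardL : Fintype.card (U × Bool → ZMod q) = q ^ (2 * n) := by
    rw [Fintype.card_fun, Fintype.card_prod, Fintype.card_bool, ZMod.card, ← hn, mul_comm n 2]
  obtain ⟨g, hg⟩ := exists_bad (Λ := U × Bool → ZMod q) q hq
    (univ.filter fun e : U × U => G.Adj e.1 e.2)
    (fun L e => L (e.2, false) - L (e.1, true)) η hη0 hη1 (by
    rw [hcardL, ← hM]
    push_cast
    rw [Real.log_pow]
    push_cast
    have e1 : 8 * Real.log q < η ^ 2 * d := by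
      rw [div_lt_iff₀ (by positivity)] at hd2
      linarith
    have e2 : 8 * Real.log q * n < η ^ 2 * (2 * M) := by
      calc 8 * Real.log q * n < η ^ 2 * d * n := by
            exact mul_lt_mul_of_pos_right e1 (by linarith)
        _ = η ^ 2 * (d * n) := by ring
        _ ≤ η ^ 2 * (2 * M) := mul_le_mul_of_nonneg_left h5R (by positivity)
    linarith)
  have hMpos : 0 < M := by
    rcases Nat.eq_zero_or_pos M with h | h
    · rw [h] at h5
      have : 0 < d * n := Nat.mul_pos hd1 hn1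
      omega
    · exact h
  have hq0 : 0 < q := by omega
  -- the game
  have hV : Fintype.card ((U × Bool) × ZMod q) = 2 * n * q := by
    rw [Fintype.card_prod, Fintype.card_prod, Fintype.card_bool, ZMod.card, ← hn]
    ring
  refine ⟨(U × Bool) × ZMod q, inferInstance, ug G g, ?_, ug_linear G g,
    ug_satisfiable G g, ?_, ug_degree G g h3, ?_⟩
  · rw [hV]
    have : 2 * n * 1 ≤ 2 * n * q := Nat.mul_le_mul_left _ hq0
    omega
  · rw [numCon_ug, ← hM]
    exact Nat.mul_pos hMpos hq0
  · intro S _ lab r m t F start hbd hsym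
    have hL : m * (2 * t + 2 * r + 1) ≤ g0 := by
      rw [hV] at hbd
      have hnpos : (0 : ℝ) < n := by exact_mod_cast hn1
      have hppos : (0 : ℝ) < q := by exact_mod_cast hq0
      have e1 : Real.log ((2 * n * q : ℕ) : ℝ) = Real.log (2 * q) + Real.log n := by
        rw [← Real.log_mul (by positivity) (by positivity)]
        congr 1
        push_cast
        ring
      have e2 : Real.log n ≤ (2 * (g0 : ℕ) + 5) * Real.log D := by
        have := Real.log_le_log hnpos h2
        rw [Real.log_pow] at this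
        push_cast at this
        exact this
      have e3 : Real.log ((2 * n * q : ℕ) : ℝ) ≤ ((g0 : ℕ) + 1) * C1 := by
        rw [e1, hC1]
        have : (0 : ℝ) ≤ ((g0 : ℕ) : ℝ) := by positivity
        nlinarith
      have e4 : (m * (t + r + 1) : ℝ) ≤ ((g0 : ℕ) + 1) / 4 := by
        refine hbd.trans ?_
        calc 1 / (4 * C1) * Real.log ((2 * n * q : ℕ) : ℝ)
            ≤ 1 / (4 * C1) * (((g0 : ℕ) + 1) * C1) := by gcongr
          _ = ((g0 : ℕ) + 1) / 4 := by field_simp
      have e5 : (4 * (m * (t + r + 1)) : ℝ) ≤ (g0 : ℕ) + 1 := by linarith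
      have e6 : 4 * (m * (t + r + 1)) ≤ g0 + 1 := by exact_mod_cast e5
      have e7 : m * (2 * t + 2 * r + 1) ≤ 2 * (m * (t + r + 1)) := by nlinarith
      omega
    have hfar := ug_far G g (L := g0) h4
    have hstart : ∀ (a : ZMod q) x, start (x.1, x.2 + a) = start x := by
      intro a x
      let φ : ((U × Bool) × ZMod q) ≃ ((U × Bool) × ZMod q) :=
        ⟨fun x => (x.1, x.2 + a), fun x => (x.1, x.2 - a), fun x => by simp, fun x => by simp⟩
      exact hsym φ ⟨fun v => hfar.hside a v, fun u v => hfar.hcon a u v⟩ x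
    obtain ⟨σ, hinv, hrun, hstuck⟩ := hfar.run F hL start hstart
    refine ⟨σ, hrun, hstuck, ?_⟩
    have hσ : ∀ s x, σ (s, x) = σ (s, 0) := by
      intro s x
      have := hinv x (s, 0)
      simpa using this
    let L0 : U × Bool → ZMod q := fun s => lab s.2 (σ (s, 0))
    rw [numCon_ug, numSat_ug G g _ L0 (by
      rintro ⟨s, x⟩
      show lab s.2 (σ (s, x)) = lab s.2 (σ (s, 0))
      rw [hσ])]
    have h6 := hg L0
    push_cast
    rw [← mul_assoc]
    refine mul_le_mul_of_nonneg_right (h6.trans ?_) (Nat.cast_nonneg _)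
    exact mul_le_mul_of_nonneg_right hηδ (Nat.cast_nonneg _)

end Pool.Agent.Q329.LSU
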