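import Pool.Agent.Q329.LSU.Cover

/-! Local search on unique games: local optima for small and for large radius (helper329). -/

set_option autoImplicit false

namespace Pool.Agent.Q329.LSU

open Finset
open Pool.Agent.TH912.LS (ball mem_ball ball_self ball_symm ball_trans ball_mono ball_adj)
open Pool.Agent.TH912.LG

variable {Q V : Type} [Fintype V]

open Classical in
/-- local optima for moves in large balls are almost optimal -/
theorem upper_add (X : Game Q V) (L : V → Q) (σ : V → Q) (ε : ℝ) (hε : 0 < ε)
    (N t : ℕ) (hN : ((CS X).card : ℝ) ≤ (1 + ε) ^ N) (hN1 : 1 ≤ N) (ht : N ≤ t)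
    (hσ : ∀ σ', ¬ Step (violCost Q) 1 t X σ σ') :
    ((VS X σ).card : ℝ) ≤ (VS X L).card + 3 * ε * numCon X := by
  obtain ⟨cl, h1, h2⟩ := clustersE X ε hε N hN hN1 univ
  have h3 : ins X univ = CS X := by
    ext e
    simp [ins]
  rw [h3] at h2
  simp only [mem_univ, true_and] at h2
  set cut : Finset (V × V) := (CS X).filter fun e => cl e.1 ≠ cl e.2 with hcut
  have key : ∀ c : V, ((VS X σ).filter fun e => cl e.1 = c ∧ cl e.2 = c).card ≤
      ((VS X L).filter fun e => cl e.1 = c ∧ cl e.2 = c).card +
      ((cut.filter fun e => cl e.1 = c).card + (cut.filter fun e => cl e.2 = c).card) := by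
    intro c
    let σ' : V → Q := fun x => if cl x = c then L x else σ x
    have hle : (violCost Q).total X σ ≤ (violCost Q).total X σ' := by
      by_contra hlt
      push Not at hlt
      refine hσ σ' ⟨⟨{c}, by simp, ?_⟩, hlt⟩
      intro v hv
      refine ⟨c, by simp, ?_⟩
      have hvc : cl v = c := by
        by_contra h
        exact hv (if_neg h)
      have h4 := h1 v (mem_univ _)
      rw [hvc] at h4
      exact ball_mono h4 ht
    rw [violCost_total, violCost_total] at hle
    have hle' : (VS X σ).card ≤ (VS X σ').card := by exact_mod_cast hle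
    have h4 : VS X σ' ⊆ ((VS X σ).filter fun e => cl e.1 ≠ c ∧ cl e.2 ≠ c) ∪
        (((VS X L).filter fun e => cl e.1 = c ∧ cl e.2 = c) ∪
        ((cut.filter fun e => cl e.1 = c) ∪ (cut.filter fun e => cl e.2 = c))) := by
      intro e he
      obtain ⟨π, hπ, hne⟩ := (mem_filter.mp he).2
      have heC : e ∈ CS X := (mem_CS X).mpr (by rw [hπ]; simp)
      by_cases a : cl e.1 = c <;> by_cases b : cl e.2 = c
      · refine mem_union_right _ (mem_union_left _ (mem_filter.mpr ⟨?_, a, b⟩))
        refine mem_filter.mpr ⟨mem_univ _, π, hπ, ?_⟩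
        simp only [σ', if_pos a, if_pos b] at hne
        exact hne
      · refine mem_union_right _ (mem_union_right _ (mem_union_left _ (mem_filter.mpr ⟨?_, a⟩)))
        refine mem_filter.mpr ⟨heC, ?_⟩
        rw [a]
        exact Ne.symm b
      · refine mem_union_right _ (mem_union_right _ (mem_union_right _ (mem_filter.mpr ⟨?_, b⟩)))
        refine mem_filter.mpr ⟨heC, ?_⟩
        rw [b]
        exact a
      · refine mem_union_left _ (mem_filter.mpr ⟨?_, a, b⟩)
        refine mem_filter.mpr ⟨mem_univ _, π, hπ, ?_⟩
        simp only [σ', if_neg a, if_neg b] at hne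
        exact hne
    have h5 := (card_le_card h4).trans ((card_union_le _ _).trans
      (Nat.add_le_add_left ((card_union_le _ _).trans (Nat.add_le_add_left
        (card_union_le _ _) _)) _))
    have h6 : ((VS X σ).filter fun e => cl e.1 = c ∧ cl e.2 = c).card +
        ((VS X σ).filter fun e => cl e.1 ≠ c ∧ cl e.2 ≠ c).card ≤ (VS X σ).card := by
      rw [← card_union_of_disjoint]
      · exact card_le_card (union_subset (filter_subset _ _) (filter_subset _ _))
      · rw [disjoint_left]
        intro e he he'
        exact (mem_filter.mp he').2.1 (mem_filter.mp he).2.1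
    omega
  have hfib : ∀ A : Finset (V × V), (A.filter fun e => cl e.1 = cl e.2).card =
      ∑ c : V, (A.filter fun e => cl e.1 = c ∧ cl e.2 = c).card := by
    intro A
    rw [card_eq_sum_card_fiberwise (f := fun e : V × V => cl e.1) (t := univ) (fun x _ => mem_univ _)]
    refine sum_congr rfl fun c _ => ?_
    rw [filter_filter]
    congr 1
    apply filter_congr
    intro e _
    constructor
    · rintro ⟨a, b⟩
      exact ⟨b, by rw [← a, b]⟩
    · rintro ⟨a, b⟩
      exact ⟨by rw [a, b], a⟩
  have hsum : ((VS X σ).filter fun e => cl e.1 = cl e.2).card ≤ (VS X L).card + 2 * cut.card := by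
    have e2 : cut.card = ∑ c : V, (cut.filter fun e => cl e.1 = c).card :=
      card_eq_sum_card_fiberwise (f := fun e : V × V => cl e.1) (t := univ) (fun x _ => mem_univ _)
    have e3 : cut.card = ∑ c : V, (cut.filter fun e => cl e.2 = c).card :=
      card_eq_sum_card_fiberwise (f := fun e : V × V => cl e.2) (t := univ) (fun x _ => mem_univ _)
    calc ((VS X σ).filter fun e => cl e.1 = cl e.2).card
        = ∑ c : V, ((VS X σ).filter fun e => cl e.1 = c ∧ cl e.2 = c).card := hfib _
      _ ≤ ∑ c : V, (((VS X L).filter fun e => cl e.1 = c ∧ cl e.2 = c).card +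
            ((cut.filter fun e => cl e.1 = c).card +
            (cut.filter fun e => cl e.2 = c).card)) := sum_le_sum fun c _ => key c
      _ = ((VS X L).filter fun e => cl e.1 = cl e.2).card + (cut.card + cut.card) := by
          rw [sum_add_distrib, sum_add_distrib, ← e2, ← e3, ← hfib]
      _ ≤ (VS X L).card + (cut.card + cut.card) :=
          Nat.add_le_add_right (card_le_card (filter_subset _ _)) _
      _ = (VS X L).card + 2 * cut.card := by ring
  have hrest : ((VS X σ).filter fun e => ¬ cl e.1 = cl e.2).card ≤ cut.card := by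
    apply card_le_card
    intro e he
    obtain ⟨he, hne⟩ := mem_filter.mp he
    obtain ⟨π, hπ, _⟩ := (mem_filter.mp he).2
    exact mem_filter.mpr ⟨(mem_CS X).mpr (by rw [hπ]; simp), hne⟩
  have hall := card_filter_add_card_filter_not (s := VS X σ) (fun e : V × V => cl e.1 = cl e.2)
  have hfin : (VS X σ).card ≤ (VS X L).card + 3 * cut.card := by omega
  have hfinR : ((VS X σ).card : ℝ) ≤ (VS X L).card + 3 * cut.card := by exact_mod_cast hfin
  rw [numCon_eq]
  have h2' : (cut.card : ℝ) ≤ ε * (CS X).card := h2
  linarith

/-- the same with explicit radius -/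
theorem upper_radius (X : Game Q V) (σ L : V → Q) (ε : ℝ) (t : ℕ) (hε : 0 < ε) (hε1 : ε ≤ 1)
    (ht : 12 / ε * Real.log (numCon X) + 1 ≤ t)
    (hσ : ∀ σ', ¬ Step (violCost Q) 1 t X σ σ') :
    (numSat X L : ℝ) - ε * numCon X ≤ numSat X σ := by
  have hsum : (numSat X σ : ℝ) + (VS X σ).card = numCon X := by exact_mod_cast numSat_eq X σ
  have hsumL : (numSat X L : ℝ) + (VS X L).card = numCon X := by exact_mod_cast numSat_eq X L
  rcases Nat.eq_zero_or_pos (numCon X) with h0 | hpos
  · have h1 : (numSat X L : ℝ) + (VS X L).card = 0 := by rw [hsumL, h0]; simp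
    have h2 : (0 : ℝ) ≤ (VS X L).card := Nat.cast_nonneg _
    have h3 : (0 : ℝ) ≤ numSat X σ := Nat.cast_nonneg _
    rw [h0]
    push_cast
    linarith
  have hcard : (1 : ℝ) ≤ numCon X := by exact_mod_cast hpos
  set δ : ℝ := ε / 3 with hδ
  have hδ0 : 0 < δ := by positivity
  have hlog : δ / 2 ≤ Real.log (1 + δ) := by
    have h1 := Real.one_sub_inv_le_log_of_pos (show (0 : ℝ) < 1 + δ by linarith)
    refine le_trans ?_ h1
    have h2 : 1 - (1 + δ)⁻¹ = δ / (1 + δ) := by field_simp; ring
    rw [h2]
    exact div_le_div_of_nonneg_left hδ0.le (by linarith) (by linarith)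
  have hlogpos : 0 < Real.log (1 + δ) := by linarith
  have hl0 : 0 ≤ Real.log (numCon X) := Real.log_nonneg hcard
  set N : ℕ := ⌊Real.log (numCon X) / Real.log (1 + δ)⌋₊ + 1 with hN
  have hN1 : Real.log (numCon X) / Real.log (1 + δ) ≤ N := by
    rw [hN]; push_cast
    exact (Nat.lt_floor_add_one _).le
  have hN2 : (N : ℝ) ≤ Real.log (numCon X) / Real.log (1 + δ) + 1 := by
    rw [hN]; push_cast
    have := Nat.floor_le (div_nonneg hl0 hlogpos.le)
    linarith
  have hpow : (numCon X : ℝ) ≤ (1 + δ) ^ N := by
    rw [div_le_iff₀ hlogpos] at hN1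
    rw [← Real.log_le_log_iff (by linarith) (by positivity), Real.log_pow]
    exact hN1
  have h3 : Real.log (numCon X) / Real.log (1 + δ) ≤ Real.log (numCon X) / (δ / 2) :=
    div_le_div_of_nonneg_left hl0 (by linarith) hlog
  have h4 : Real.log (numCon X) / (δ / 2) = 6 / ε * Real.log (numCon X) := by
    rw [hδ]
    field_simp
    ring
  have h5 : 6 / ε * Real.log (numCon X) ≤ 12 / ε * Real.log (numCon X) := by
    have : 6 / ε ≤ 12 / ε := by gcongr; norm_num
    exact mul_le_mul_of_nonneg_right this hl0
  have h6 : (N : ℝ) ≤ t := by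
    rw [h4] at h3
    linarith
  have h7 := upper_add X L σ δ hδ0 N t (by rw [← numCon_eq]; exact hpow) (by omega)
    (by exact_mod_cast h6) hσ
  have h8 : 3 * δ * numCon X = ε * numCon X := by rw [hδ]; ring
  rw [h8] at h7
  linarith

open Classical in
/-- local optima for moves of single vertices -/
theorem upper_one [Fintype Q] (X : Game Q V) (hX : Unique X) (σ : V → Q)
    (hσ : ∀ σ', ¬ Step (violCost Q) 1 0 X σ σ') :
    numCon X ≤ Fintype.card Q * numSat X σ := by
  -- constraints from `v` and satisfied constraints from `v` for the label `b` at `v`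
  have hcon : numCon X = ∑ v, (univ.filter fun w => X.con v w ≠ none).card := by
    rw [numCon_eq]
    unfold CS
    rw [card_filter, ← univ_product_univ, sum_product]
    exact sum_congr rfl fun v _ => by rw [card_filter]
  have hviol : ∀ τ : V → Q, (VS X τ).card =
      ∑ v, (univ.filter fun w => ∃ π, X.con v w = some π ∧ π (τ v) ≠ τ w).card := by
    intro τ
    unfold VS
    rw [card_filter, ← univ_product_univ, sum_product]
    exact sum_congr rfl fun v _ => by rw [card_filter]
  have key : ∀ (v : V) (b : Q),
      (univ.filter fun w => ∃ π, X.con v w = some π ∧ π (σ v) ≠ σ w).card ≤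
      (univ.filter fun w => ∃ π, X.con v w = some π ∧ π b ≠ σ w).card := by
    intro v b
    by_cases hv : X.side v = true
    · let σ' : V → Q := Function.update σ v b
      have hle : (violCost Q).total X σ ≤ (violCost Q).total X σ' := by
        by_contra hlt
        push Not at hlt
        refine hσ σ' ⟨⟨{v}, by simp, ?_⟩, hlt⟩
        intro w hw
        refine ⟨v, by simp, ?_⟩
        have : w = v := by
          by_contra h
          exact hw (Function.update_of_ne h _ _)
        rw [this]
        exact ball_self _ _ _
      rw [violCost_total, violCost_total] at hle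
      have hle' : (VS X σ).card ≤ (VS X σ').card := by exact_mod_cast hle
      rw [hviol, hviol, ← add_sum_erase univ _ (mem_univ v),
        ← add_sum_erase univ _ (mem_univ v)] at hle'
      have hne : ∀ w : V, X.side w = false → σ' w = σ w := by
        intro w hw
        refine Function.update_of_ne ?_ _ _
        rintro rfl
        rw [hv] at hw
        exact absurd hw (by simp)
      have hrest : ∑ u ∈ univ.erase v, (univ.filter fun w => ∃ π, X.con u w = some π ∧
          π (σ' u) ≠ σ' w).card = ∑ u ∈ univ.erase v, (univ.filter fun w =>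
            ∃ π, X.con u w = some π ∧ π (σ u) ≠ σ w).card := by
        refine sum_congr rfl fun u hu => ?_
        congr 1
        apply filter_congr
        intro w _
        have h1 : σ' u = σ u := Function.update_of_ne (mem_erase.1 hu).1 _ _
        rw [h1]
        constructor
        · rintro ⟨π, hπ, h2⟩
          rw [hne w (hX.1 u w (by rw [hπ]; simp)).2] at h2
          exact ⟨π, hπ, h2⟩
        · rintro ⟨π, hπ, h2⟩
          rw [← hne w (hX.1 u w (by rw [hπ]; simp)).2] at h2
          exact ⟨π, hπ, h2⟩
      have hv' : (univ.filter fun w => ∃ π, X.con v w = some π ∧ π (σ' v) ≠ σ' w) =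
          (univ.filter fun w => ∃ π, X.con v w = some π ∧ π b ≠ σ w) := by
        apply filter_congr
        intro w _
        have h1 : σ' v = b := Function.update_self _ _ _
        rw [h1]
        constructor
        · rintro ⟨π, hπ, h2⟩
          rw [hne w (hX.1 v w (by rw [hπ]; simp)).2] at h2
          exact ⟨π, hπ, h2⟩
        · rintro ⟨π, hπ, h2⟩
          rw [← hne w (hX.1 v w (by rw [hπ]; simp)).2] at h2
          exact ⟨π, hπ, h2⟩
      rw [hrest, hv'] at hle'
      exact Nat.le_of_add_le_add_right hle'
    · have h1 : (univ.filter fun w => ∃ π, X.con v w = some π ∧ π (σ v) ≠ σ w) = ∅ := by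
        rw [filter_eq_empty_iff]
        rintro w _ ⟨π, hπ, _⟩
        exact hv (hX.1 v w (by rw [hπ]; simp)).1
      rw [h1]
      simp
  have hone : ∀ v : V, ∑ b : Q, (univ.filter fun w => ∃ π, X.con v w = some π ∧ π b ≠ σ w).card +
      (univ.filter fun w => X.con v w ≠ none).card =
      Fintype.card Q * (univ.filter fun w => X.con v w ≠ none).card := by
    intro v
    have h1 : ∀ w : V, (∑ b : Q, if ∃ π, X.con v w = some π ∧ π b ≠ σ w then 1 else 0) +
        (if X.con v w ≠ none then 1 else 0) =
        Fintype.card Q * (if X.con v w ≠ none then 1 else 0) := by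
      intro w
      by_cases hw : X.con v w ≠ none
      · obtain ⟨π, hπ⟩ := Option.ne_none_iff_exists'.mp hw
        obtain ⟨b0, hb0⟩ := (hX.2 v w π hπ).2 (σ w)
        have h2 : ∀ b : Q, (if ∃ π, X.con v w = some π ∧ π b ≠ σ w then 1 else 0) =
            if b ≠ b0 then 1 else 0 := by
          intro b
          congr 1
          apply propext
          constructor
          · rintro ⟨π', hπ', h3⟩ rfl
            rw [hπ] at hπ'
            cases hπ'
            exact h3 hb0
          · intro h3
            refine ⟨π, hπ, fun h4 => h3 ((hX.2 v w π hπ).1 (h4.trans hb0.symm))⟩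
        rw [sum_congr rfl fun b _ => h2 b, if_pos hw, ← card_filter]
        have h3 : (univ.filter fun b : Q => b ≠ b0) = univ.erase b0 := by
          ext b
          simp
        rw [h3, card_erase_of_mem (mem_univ _), card_univ]
        have : 0 < Fintype.card Q := Fintype.card_pos_iff.2 ⟨b0⟩
        omega
      · have h2 : ∀ b : Q, (if ∃ π, X.con v w = some π ∧ π b ≠ σ w then 1 else 0) = 0 := by
          intro b
          refine if_neg ?_
          rintro ⟨π, hπ, _⟩
          exact hw (by rw [hπ]; simp)
        rw [sum_congr rfl fun b _ => h2 b, if_neg hw]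
        simp
    have h2 := Finset.sum_congr (s₁ := (univ : Finset V)) rfl fun w _ => h1 w
    rw [sum_add_distrib, sum_comm, ← mul_sum] at h2
    simp only [card_filter]
    exact h2
  have hsat := numSat_eq X σ
  rcases isEmpty_or_nonempty Q with hQ | hQ
  · have h1 : ∀ v w, X.con v w = none := by
      intro v w
      exact (hQ.false (σ v)).elim
    have h2 : numCon X = 0 := by
      rw [hcon]
      simp [h1]
    rw [h2]
    exact Nat.zero_le _
  have hQ0 : 0 < Fintype.card Q := Fintype.card_pos
  have h1 : Fintype.card Q * (VS X σ).card + numCon X ≤ Fintype.card Q * numCon X := by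
    rw [hviol, hcon, mul_sum, mul_sum, ← sum_add_distrib]
    refine sum_le_sum fun v _ => ?_
    rw [← hone v]
    refine Nat.add_le_add_right ?_ _
    rw [← smul_eq_mul, ← card_univ, ← sum_const]
    exact sum_le_sum fun b _ => key v b
  nlinarith

end Pool.Agent.Q329.LSU
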